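import Pool.Agent.H.MP_53e59f_lc.SK.Defs
import Pool.Agent.H.MP_53e59f_lc.SI.Cnt

/-!
# Words over a scattered set of letters

The tokens of `w ++ z` for a word `z` over `D` depend only on the tokens of `w` and on the numbers of the
letters in `z`; there are no tokens if `z` contains three different letters.
-/

namespace Pool.Agent.SK

open Pool.Agent.SF

variable {u v : List ℕ} {D : Set ℕ}

theorem adj_ne {a b p : ℕ} (h : Scat D u) (ha : a ∈ D) (hb : b ∈ D) (hab : a ≠ b)
    (h1 : u[p]? = some a) (h2 : u[p + 1]? = some b) : False := by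
  refine h a ha b hb hab ?_
  obtain ⟨hp, e1⟩ := List.getElem?_eq_some_iff.1 h1
  obtain ⟨hq, e2⟩ := List.getElem?_eq_some_iff.1 h2
  refine ⟨u.take p, u.drop (p + 1 + 1), ?_⟩
  have e3 : u.drop p = u[p] :: u.drop (p + 1) := List.drop_eq_getElem_cons hp
  have e4 : u.drop (p + 1) = u[p + 1] :: u.drop (p + 1 + 1) := List.drop_eq_getElem_cons hq
  conv_rhs => rw [← List.take_append_drop p u, e3, e4, e1, e2]
  simp

/-- The tokens after two different letters of `D`. -/
theorem two {d d' : ℕ} (hu : Scat D u) (hv : Scat D v) (hd : d ∈ D) (hd' : d' ∈ D) (hne : d ≠ d')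
    (w : List ℕ) (p : ℕ) : Tk u v ((w ++ [d]) ++ [d']) p ↔
      1 ≤ p ∧ Tk u v w (p - 1) ∧ ((u[p - 1]? = some d ∧ v[w.length + 1 - p]? = some d') ∨
        (u[p - 1]? = some d' ∧ v[w.length + 1 - p]? = some d)) := by
  have hl : (w ++ [d]).length = w.length + 1 := by simp
  rw [Tk_snoc, Tk_snoc, Tk_snoc, hl]
  constructor
  · rintro (⟨⟨h1, h2⟩ | ⟨h0, h1, h2⟩, h3⟩ | ⟨h0, ⟨h1, h2⟩ | ⟨h0', h1, h2⟩, h3⟩)
    · exfalso
      have h4 := h1.2.1
      have e : w.length + 1 - p = w.length - p + 1 := by omega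
      rw [e] at h3
      exact adj_ne hv hd hd' hne h2 h3
    · exact ⟨h0, h1, Or.inl ⟨h2, h3⟩⟩
    · have e : w.length - (p - 1) = w.length + 1 - p := by omega
      rw [e] at h2
      exact ⟨h0, h1, Or.inr ⟨h3, h2⟩⟩
    · exfalso
      have e : p - 1 = p - 1 - 1 + 1 := by omega
      rw [e] at h3
      exact adj_ne hu hd hd' hne h2 h3
  · rintro ⟨h0, h1, ⟨h2, h3⟩ | ⟨h2, h3⟩⟩
    · exact Or.inl ⟨Or.inr ⟨h0, h1, h2⟩, h3⟩
    · have e : w.length + 1 - p = w.length - (p - 1) := by omega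
      rw [e] at h3
      exact Or.inr ⟨h0, Or.inl ⟨h1, h3⟩, h2⟩

theorem app_congr {w₁ w₂ : List ℕ} (hl : w₁.length = w₂.length) (h : Rs u v w₁ = Rs u v w₂)
    (z : List ℕ) : Rs u v (w₁ ++ z) = Rs u v (w₂ ++ z) := by
  induction z using List.reverseRecOn with
  | nil => simpa using h
  | append_singleton z a ih =>
    rw [← List.append_assoc, ← List.append_assoc, SI.Rs_snoc, SI.Rs_snoc, ih]
    simp only [List.length_append, hl]

theorem app_empty {w : List ℕ} (h : Rs u v w = ∅) (z : List ℕ) : Rs u v (w ++ z) = ∅ := by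
  induction z using List.reverseRecOn with
  | nil => simpa using h
  | append_singleton z a ih =>
    rw [← List.append_assoc, SI.Rs_snoc, ih]
    ext p
    simp [SI.nx]

theorem swap2 {d d' : ℕ} (hu : Scat D u) (hv : Scat D v) (hd : d ∈ D) (hd' : d' ∈ D)
    (w : List ℕ) : Rs u v (w ++ [d, d']) = Rs u v (w ++ [d', d]) := by
  by_cases hne : d = d'
  · rw [hne]
  · ext p
    have e1 : w ++ [d, d'] = (w ++ [d]) ++ [d'] := by simp
    have e2 : w ++ [d', d] = (w ++ [d']) ++ [d] := by simp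
    rw [e1, e2]
    refine (two hu hv hd hd' hne w p).trans
      (Iff.trans ?_ (two hu hv hd' hd (Ne.symm hne) w p).symm)
    constructor
    · rintro ⟨h0, h1, h2 | h2⟩
      · exact ⟨h0, h1, Or.inr h2⟩
      · exact ⟨h0, h1, Or.inl h2⟩
    · rintro ⟨h0, h1, h2 | h2⟩
      · exact ⟨h0, h1, Or.inr h2⟩
      · exact ⟨h0, h1, Or.inl h2⟩

theorem perm {z₁ z₂ : List ℕ} (hu : Scat D u) (hv : Scat D v) (h : z₁.Perm z₂) :
    (∀ a ∈ z₁, a ∈ D) → ∀ w, Rs u v (w ++ z₁) = Rs u v (w ++ z₂) := by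
  induction h with
  | nil => exact fun _ _ => rfl
  | cons x _ ih =>
    intro hz w
    have h1 := ih (fun a ha => hz a (List.mem_cons_of_mem _ ha)) (w ++ [x])
    simpa using h1
  | swap x y l =>
    intro hz w
    have e1 : ∀ a b : ℕ, w ++ a :: b :: l = (w ++ [a, b]) ++ l := by
      intro a b
      simp
    rw [e1, e1]
    exact app_congr (by simp) (swap2 hu hv (hz y (by simp)) (hz x (by simp)) w) l
  | trans h1 _ ih1 ih2 =>
    intro hz w
    exact (ih1 hz w).trans (ih2 (fun a ha => hz a (h1.mem_iff.2 ha)) w)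

theorem three {d d' d'' : ℕ} (hu : Scat D u) (hv : Scat D v) (hd : d ∈ D) (hd' : d' ∈ D)
    (hd'' : d'' ∈ D) (h1 : d ≠ d') (h2 : d ≠ d'') (h3 : d' ≠ d'') (w : List ℕ) :
    Rs u v (w ++ [d, d', d'']) = ∅ := by
  ext p
  simp only [Set.mem_empty_iff_false, iff_false]
  have e1 : w ++ [d, d', d''] = ((w ++ [d]) ++ [d']) ++ [d''] := by simp
  rw [e1]
  intro hp
  have hl : ((w ++ [d]) ++ [d']).length = w.length + 1 + 1 := by simp
  rcases (Tk_snoc u v _ d'' p).1 hp with ⟨h4, h5⟩ | ⟨h0, h4, h5⟩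
  · rw [hl] at h5
    obtain ⟨h6, h7, h8⟩ := (two hu hv hd hd' h1 w p).1 h4
    have h9 := h7.2.1
    have e : w.length + 1 + 1 - p = w.length + 1 - p + 1 := by omega
    rw [e] at h5
    rcases h8 with ⟨_, h8⟩ | ⟨_, h8⟩
    · exact adj_ne hv hd' hd'' h3 h8 h5
    · exact adj_ne hv hd hd'' h2 h8 h5
  · obtain ⟨h6, h7, h8⟩ := (two hu hv hd hd' h1 w (p - 1)).1 h4
    have e : p - 1 = p - 1 - 1 + 1 := by omega
    rw [e] at h5
    rcases h8 with ⟨h8, _⟩ | ⟨h8, _⟩
    · exact adj_ne hu hd hd'' h2 h8 h5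
    · exact adj_ne hu hd' hd'' h3 h8 h5

/-- A word is a permutation of a word with one or two blocks or contains three different letters. -/
theorem canon (z : List ℕ) : (∃ d i d' j, (i = 0 ∨ d ∈ z) ∧ (j = 0 ∨ d' ∈ z) ∧
      z.Perm (List.replicate i d ++ List.replicate j d')) ∨
    ∃ d ∈ z, ∃ d' ∈ z, ∃ d'' ∈ z, ∃ z', d ≠ d' ∧ d ≠ d'' ∧ d' ≠ d'' ∧
      z.Perm ([d, d', d''] ++ z') := by
  cases hz : z with
  | nil => exact Or.inl ⟨0, 0, 0, 0, Or.inl rfl, Or.inl rfl, by simp⟩
  | cons d z1 =>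
    rw [← hz]
    have hd : d ∈ z := by rw [hz]; simp
    by_cases h1 : ∃ d' ∈ z, d' ≠ d
    · obtain ⟨d', hd', hne⟩ := h1
      by_cases h2 : ∃ d'' ∈ z, d'' ≠ d ∧ d'' ≠ d'
      · obtain ⟨d'', hd'', hne1, hne2⟩ := h2
        right
        refine ⟨d, hd, d', hd', d'', hd'', ((z.erase d).erase d').erase d'', Ne.symm hne,
          Ne.symm hne1, Ne.symm hne2, ?_⟩
        have p1 := List.perm_cons_erase hd
        have m1 : d' ∈ z.erase d := (List.mem_erase_of_ne hne).2 hd'
        have p2 := List.perm_cons_erase m1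
        have m2 : d'' ∈ (z.erase d).erase d' :=
          (List.mem_erase_of_ne hne2).2 ((List.mem_erase_of_ne hne1).2 hd'')
        have p3 := List.perm_cons_erase m2
        exact p1.trans ((p2.trans (p3.cons d')).cons d)
      · left
        refine ⟨d, z.count d, d', z.count d', Or.inr hd, Or.inr hd', ?_⟩
        rw [List.perm_iff_count]
        intro a
        rw [List.count_append, List.count_replicate, List.count_replicate]
        by_cases ha : a = d
        · subst ha
          have : ¬ (d' = a) := hne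
          simp [this]
        · by_cases ha' : a = d'
          · subst ha'
            have : ¬ (d = a) := fun h => ha h.symm
            simp [this]
          · have h3 : a ∉ z := fun h => h2 ⟨a, h, ha, ha'⟩
            have h4 : ¬ (d = a) := fun h => ha h.symm
            have h5 : ¬ (d' = a) := fun h => ha' h.symm
            simp [List.count_eq_zero_of_not_mem h3, h4, h5]
    · left
      refine ⟨d, z.count d, d, 0, Or.inr hd, Or.inl rfl, ?_⟩
      rw [List.perm_iff_count]
      intro a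
      rw [List.count_append, List.count_replicate, List.count_replicate]
      by_cases ha : a = d
      · subst ha
        simp
      · have h3 : a ∉ z := fun h => h1 ⟨a, h, ha⟩
        have h4 : ¬ (d = a) := fun h => ha h.symm
        simp [List.count_eq_zero_of_not_mem h3, h4]

theorem splitD (D : Set ℕ) (w : List ℕ) : ∃ w₀ z, w = w₀ ++ z ∧ (∀ a ∈ z, a ∈ D) ∧
    (w₀ = [] ∨ ∃ t e, e ∉ D ∧ w₀ = t ++ [e]) := by
  induction w using List.reverseRecOn with
  | nil => exact ⟨[], [], rfl, by simp, Or.inl rfl⟩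
  | append_singleton w a ih =>
    by_cases ha : a ∈ D
    · obtain ⟨w₀, z, rfl, h1, h2⟩ := ih
      refine ⟨w₀, z ++ [a], by rw [List.append_assoc], ?_, h2⟩
      intro b hb
      rcases List.mem_append.1 hb with hb | hb
      · exact h1 b hb
      · rw [List.mem_singleton.1 hb]
        exact ha
    · exact ⟨w ++ [a], [], by simp, by simp, Or.inr ⟨w, a, ha, rfl⟩⟩

end Pool.Agent.SK
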