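import Pool.Agent.H.MP_53e59f_lc.SJ.Defs

/-!
# Words in which all letters but the letters of a scattered set have few blocks
-/

namespace Pool.Agent.SK

open Pool.Agent.SJ

/-- Two different letters of `D` are never neighbours in the word `u`. -/
def Scat {α : Type} (D : Set α) (u : List α) : Prop :=
  ∀ a ∈ D, ∀ b ∈ D, a ≠ b → ¬ [a, b] <:+: u

/-- There is a set `D` of letters, scattered in `u` and in `v`, such that every letter outside `D` has at
most `k` blocks in every factor `a` of `u` which is a permutation of a factor `b` of `v`. -/
def FewD {α : Type} [DecidableEq α] (k : ℕ) (u v : List α) : Prop :=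
  ∃ D : Set α, Scat D u ∧ Scat D v ∧
    ∀ a b : List α, a <:+: u → b <:+: v → a.Perm b → ∀ e, e ∉ D → blk e a ≤ k

end Pool.Agent.SK
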