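import Pool.Agent.H.MP_53e59f_lc.SK.Adj
import Pool.Agent.H.MP_53e59f_lc.SJ.Cnt

/-!
# The number of the sets of tokens
-/

namespace Pool.Agent.SK

open Pool.Agent.SF Pool.Agent.SJ

variable {u v : List ℕ} {s k : ℕ} {D : Set ℕ}

theorem ICe_ex {L e : ℕ}
    (h : ∀ a b : List ℕ, a <:+: u → b <:+: v → a.Perm b → blk e a ≤ k)
    (t : List ℕ) (hs : ∀ a ∈ t ++ [e], a < s) (hL : (t ++ [e]).length ≤ L) :
    ∃ q : Q s L u.length k, ICq u v k 0 (t ++ [e]) q := by
  have hes : e < s := hs e (by simp)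
  have hl : (t ++ [e]).length = t.length + 1 := by simp
  rcases SI.split e (t ++ [e]) with ⟨i, e2⟩ | ⟨i, a, f, hf, e2⟩
  · have hi : t.length + 1 = i := by
      have := congrArg List.length e2
      simpa using this
    refine ⟨(0, ⟨i, by omega⟩, ⟨e, by omega⟩, 0, 0, 0, 0, ∅, ∅, ∅), [], ?_, Or.inl rfl⟩
    exact e2.trans (List.append_nil _).symm
  · have hi : t.length + 1 = a.length + 1 + i := by
      have := congrArg List.length e2
      simp only [List.length_append, List.length_replicate, List.length_cons,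
        List.length_nil] at this
      omega
    have hi1 : 1 ≤ i := by
      by_contra hc
      have hi0 : i = 0 := by omega
      rw [hi0, List.replicate_zero, List.append_nil] at e2
      have h3 := congrArg List.getLast? e2
      rw [List.getLast?_concat, List.getLast?_concat] at h3
      exact hf (Option.some.inj h3).symm
    have hfs : f < s := by
      refine hs f ?_
      rw [e2]
      simp
    have hcf : a.count f ≤ a.length := List.count_le_length
    have hce : (a ++ [f]).count e ≤ (a ++ [f]).length := List.count_le_length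
    rw [List.length_append, List.length_singleton] at hce
    obtain ⟨m, hm, hall⟩ : ∃ m, m < u.length + 1 ∧
        ∀ z, Tk u v (a ++ [f]) z → ∃ i, i < k + 1 ∧ g e u z = m + i := by
      by_cases hne : ∃ x, Tk u v (a ++ [f]) x
      · let P : Set ℕ := {t | ∃ x, Tk u v (a ++ [f]) x ∧ g e u x = t}
        have hP : P.Nonempty := by
          obtain ⟨x, hx⟩ := hne
          exact ⟨_, x, hx, rfl⟩
        obtain ⟨x₀, hx₀, e₀⟩ : sInf P ∈ P := Nat.sInf_mem hP
        refine ⟨sInf P, ?_, ?_⟩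
        · rw [← e₀]
          have h1 : g e u x₀ ≤ (u.take x₀).length := blk_le e _
          have h2 : (u.take x₀).length ≤ u.length := by
            rw [List.length_take]
            exact Nat.min_le_right _ _
          omega
        · intro x hx
          have h1 : sInf P ≤ g e u x := Nat.sInf_le ⟨x, hx, rfl⟩
          have h2 := g_tok (e := e) h hx₀ hx
          rw [e₀] at h2
          exact ⟨g e u x - sInf P, by omega, by omega⟩
      · exact ⟨0, by omega, fun x hx => absurd ⟨x, hx⟩ hne⟩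
    have hb : ∀ i : ℕ, (∃ z, Tk u v (a ++ [f]) z ∧ g e u z = m + i) → i < k + 1 := by
      rintro i ⟨z, hz, hi⟩
      obtain ⟨i', hi', hi''⟩ := hall z hz
      omega
    obtain ⟨A, hA⟩ := toS_ex (k := k) (S1 e u v (a ++ [f]) m)
      (fun i ⟨z, hz, _, hi⟩ => hb i ⟨z, hz, hi⟩)
    obtain ⟨B, hB⟩ := toS_ex (k := k) (S2 e u v (a ++ [f]) m)
      (fun i ⟨z, hz, _, hi⟩ => hb i ⟨z, hz, hi⟩)
    obtain ⟨C, hC⟩ := toS_ex (k := k) (S3 e u v (a ++ [f]) m)
      (fun i ⟨z, hz, _, hi⟩ => hb i ⟨z, hz, hi⟩)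
    refine ⟨(0, ⟨i, by omega⟩, ⟨e, by omega⟩, ⟨f, by omega⟩, ⟨a.count f, by omega⟩,
      ⟨(a ++ [f]).count e, by omega⟩, ⟨m, hm⟩, A, B, C), a ++ [f], ?_,
      Or.inr ⟨a, rfl, hf, hi1, rfl, rfl, hall, hA, hB, hC⟩⟩
    exact e2.trans (List.append_nil _).symm

/-- The codes. -/
abbrev QD (s L n k : ℕ) : Type :=
  Fin (L + 1) × Fin (L + 1) × Fin (s + 1) × Fin (s + 1) × Q s L n k

/-- `w` has the code `q`. -/
def IK {s L n : ℕ} (u v : List ℕ) (k : ℕ) (w : List ℕ) (q : QD s L n k) : Prop :=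
  ∃ y : List ℕ, w.length = y.length + (q.1 + q.2.1) ∧
    Rs u v w = Rs u v (y ++ (List.replicate q.1 (q.2.2.1 : ℕ) ++
      List.replicate q.2.1 (q.2.2.2.1 : ℕ))) ∧ ICq u v k 0 y q.2.2.2.2

theorem IK_det {L n : ℕ} {q : QD s L n k} {w₁ w₂ : List ℕ} (h1 : IK u v k w₁ q)
    (h2 : IK u v k w₂ q) (hl : w₁.length = w₂.length) : Rs u v w₁ = Rs u v w₂ := by
  obtain ⟨y₁, l1, r1, c1⟩ := h1
  obtain ⟨y₂, l2, r2, c2⟩ := h2
  have hy : y₁.length = y₂.length := by omega
  rw [r1, r2]
  exact app_congr hy (IC_det c1 c2 hy) _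

theorem IK_ex {L : ℕ} (hu : Scat D u) (hv : Scat D v)
    (h : ∀ a b : List ℕ, a <:+: u → b <:+: v → a.Perm b → ∀ e, e ∉ D → blk e a ≤ k)
    (w : List ℕ) (hs : ∀ a ∈ w, a < s) (hL : w.length ≤ L) :
    Rs u v w = ∅ ∨ ∃ q : QD s L u.length k, IK u v k w q := by
  obtain ⟨w₀, z, e1, hz, hw₀⟩ := splitD D w
  have hzs : ∀ a ∈ z, a < s := fun a ha => hs a (by rw [e1]; exact List.mem_append_right _ ha)
  have hws : ∀ a ∈ w₀, a < s := fun a ha => hs a (by rw [e1]; exact List.mem_append_left _ ha)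
  have hlen : w.length = w₀.length + z.length := by rw [e1, List.length_append]
  rcases canon z with ⟨d, i, d', j, hd, hd', hp⟩ | ⟨d, hd, d', hd', d'', hd'', z', h1, h2, h3, hp⟩
  · right
    have hzl : z.length = i + j := by
      have := hp.length_eq
      rw [List.length_append, List.length_replicate, List.length_replicate] at this
      exact this
    obtain ⟨q, hq⟩ : ∃ q : Q s L u.length k, ICq u v k 0 w₀ q := by
      rcases hw₀ with rfl | ⟨t, e, he, rfl⟩
      · exact ⟨(0, 0, 0, 0, 0, 0, 0, ∅, ∅, ∅), [], rfl, Or.inl rfl⟩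
      · exact ICe_ex (fun a b ha hb hab => h a b ha hb hab e he) t hws (by omega)
    have key : ∀ (i d : ℕ), (i = 0 ∨ d ∈ z) →
        ∃ d0, d0 < s + 1 ∧ List.replicate i d = List.replicate i d0 := by
      intro i d hi
      rcases hi with rfl | hi
      · exact ⟨0, by omega, rfl⟩
      · exact ⟨d, by have := hzs d hi; omega, rfl⟩
    obtain ⟨d0, hd0, r1⟩ := key i d hd
    obtain ⟨d1, hd1, r2⟩ := key j d' hd'
    refine ⟨(⟨i, by omega⟩, ⟨j, by omega⟩, ⟨d0, hd0⟩, ⟨d1, hd1⟩, q), w₀, ?_, ?_, hq⟩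
    · show w.length = w₀.length + (i + j)
      omega
    · show Rs u v w = Rs u v (w₀ ++ (List.replicate i d0 ++ List.replicate j d1))
      rw [← r1, ← r2]
      exact (congrArg (Rs u v) e1).trans (perm hu hv hp hz w₀)
  · left
    have e2 : Rs u v w = Rs u v (w₀ ++ ([d, d', d''] ++ z')) :=
      (congrArg (Rs u v) e1).trans (perm hu hv hp hz w₀)
    rw [e2, ← List.append_assoc]
    exact app_empty (three hu hv (hz d hd) (hz d' hd') (hz d'' hd'') h1 h2 h3 w₀) z'

/-- The bound for the number of the sets of tokens at every level. -/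
def bndD (s L n k : ℕ) : ℕ := (L + 1) ^ 6 * (s + 1) ^ 4 * (n + 1) * 8 ^ (k + 1) + 1

theorem card_QD (s L n k : ℕ) : Nat.card (QD s L n k) + 1 = bndD s L n k := by
  unfold bndD
  rw [Nat.card_prod, Nat.card_prod, Nat.card_prod, Nat.card_prod, card_Q]
  simp only [Nat.card_eq_fintype_card, Fintype.card_fin]
  unfold SJ.bnd
  ring

theorem count_Rs (s : ℕ) {u v : List ℕ} {k : ℕ} (h : FewD k u v) (K : ℕ) :
    {S : Set ℕ | ∃ w : List ℕ, w.length = K ∧ (∀ a ∈ w, a < s) ∧ S = Rs u v w}.Finite ∧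
      {S : Set ℕ | ∃ w : List ℕ, w.length = K ∧ (∀ a ∈ w, a < s) ∧ S = Rs u v w}.ncard ≤
        bndD s (u.length + v.length) u.length k := by
  classical
  obtain ⟨D, hu, hv, h⟩ := h
  let Φ : QD s (u.length + v.length) u.length k → Set ℕ :=
    fun q => if hq : ∃ w : List ℕ, w.length = K ∧ IK u v k w q then Rs u v hq.choose else ∅
  have hsub : {S : Set ℕ | ∃ w : List ℕ, w.length = K ∧ (∀ a ∈ w, a < s) ∧ S = Rs u v w} ⊆
      Set.range Φ ∪ {∅} := by
    rintro S ⟨w, hw, hws, rfl⟩
    by_cases hK : w.length ≤ u.length + v.length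
    · rcases IK_ex (L := u.length + v.length) hu hv h w hws hK with h0 | ⟨q, hq⟩
      · right
        exact h0
      · left
        have hex : ∃ w : List ℕ, w.length = K ∧ IK u v k w q := ⟨w, hw, hq⟩
        refine ⟨q, ?_⟩
        show (if hq : ∃ w : List ℕ, w.length = K ∧ IK u v k w q then Rs u v hq.choose else ∅) = _
        rw [dif_pos hex]
        exact IK_det hex.choose_spec.2 hq (hex.choose_spec.1.trans hw.symm)
    · right
      rw [Set.mem_singleton_iff]
      ext z
      simp only [Set.mem_empty_iff_false, iff_false]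
      rintro ⟨h3, h4, h5, -⟩
      omega
  have hfin : (Set.range Φ ∪ {∅}).Finite := (Set.finite_range Φ).union (Set.finite_singleton _)
  refine ⟨hfin.subset hsub, ?_⟩
  calc _ ≤ (Set.range Φ ∪ {∅}).ncard := Set.ncard_le_ncard hsub hfin
    _ ≤ (Set.range Φ).ncard + ({∅} : Set (Set ℕ)).ncard := Set.ncard_union_le _ _
    _ ≤ Nat.card (QD s (u.length + v.length) u.length k) + 1 := by
      refine Nat.add_le_add ?_ (Set.ncard_singleton _).le
      rw [← Set.image_univ]
      refine (Set.ncard_image_le (Set.finite_univ)).trans ?_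
      rw [Set.ncard_univ]
    _ = bndD s (u.length + v.length) u.length k := card_QD _ _ _ _

end Pool.Agent.SK
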