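import Pool.Agent.H.MP_53e59f_lc.SJ.Blk
import Pool.Agent.H.MP_53e59f_lc.SK.Defs

/-!
# Images of the words
-/

namespace Pool.Agent.SK

open Pool.Agent.SJ

private theorem Mp_factor {α β : Type} {f : α → β} {u : List α} {a : List β} (h : a <:+: u.map f) :
    ∃ a', a' <:+: u ∧ a = a'.map f := by
  obtain ⟨s, t, hst⟩ := h
  obtain ⟨l₁, l₂, rfl, h1, h2⟩ := List.map_eq_append_iff.1 hst.symm
  obtain ⟨l₃, l₄, rfl, h3, h4⟩ := List.map_eq_append_iff.1 h1
  exact ⟨l₄, ⟨l₃, l₂, rfl⟩, h4.symm⟩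

theorem Scat_map {α β : Type} {f : α → β} (hf : Function.Injective f) {D : Set α} {u : List α}
    (h : Scat D u) : Scat (f '' D) (u.map f) := by
  rintro _ ⟨a, ha, rfl⟩ _ ⟨b, hb, rfl⟩ hab hi
  obtain ⟨l, hl, e⟩ := Mp_factor hi
  have e1 : l = [a, b] := by
    have e2 : l.map f = [a, b].map f := e.symm
    exact hf.list_map e2
  rw [e1] at hl
  exact h a ha b hb (fun h1 => hab (by rw [h1])) hl

theorem FewD_map {α β : Type} [DecidableEq α] [DecidableEq β] {f : α → β}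
    (hf : Function.Injective f) {k : ℕ} {u v : List α} (h : FewD k u v) :
    FewD k (u.map f) (v.map f) := by
  obtain ⟨D, hu, hv, h⟩ := h
  refine ⟨f '' D, Scat_map hf hu, Scat_map hf hv, ?_⟩
  intro a b ha hb hab e he
  obtain ⟨a', ha', rfl⟩ := Mp_factor ha
  obtain ⟨b', hb', rfl⟩ := Mp_factor hb
  by_cases hea : e ∈ a'.map f
  · obtain ⟨e', -, rfl⟩ := List.mem_map.1 hea
    rw [blk_map hf]
    exact h a' b' ha' hb' ((List.map_perm_map_iff hf).1 hab) e' (fun h1 => he ⟨e', h1, rfl⟩)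
  · rw [blk_zero hea]
    exact Nat.zero_le _

end Pool.Agent.SK
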